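import Pool.Agent.Run7.h894.LK.Stm
import Pool.Agent.N537.RS.Cst2

/-!
# Pieces CLT, CSD, CHO of project LK (helper892)
-/

set_option autoImplicit false

open MeasureTheory Set Filter Topology
open scoped Matrix

namespace Pool.Agent.Run7.h892.LK

open LTd (Mat)
open Pool.Agent.Run7.H894.LK
open Pool.Agent.R117.RL

noncomputable section

lemma cc_pos {g : ℝ} (hg : 1 < g) : 0 < LTd.cc g := by
  unfold LTd.cc
  have : 0 < g - 1 := by linarith
  positivity

lemma JJ_pos {h g : ℝ} (hh : 0 ≤ h) (hg : 1 < g) : 0 < LTd.JJ h g := by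
  unfold LTd.JJ
  have h1 := cc_pos hg
  have h2 : 0 < LTd.cc (g + h) := cc_pos (by linarith)
  have h3 : 0 < Real.Gamma (g + 1 + h) := Real.Gamma_pos_of_pos (by linarith)
  have h4 : 0 < Real.Gamma (g + 1) := Real.Gamma_pos_of_pos (by linarith)
  have := Real.pi_pos
  positivity

theorem t_CLT : S_CLT := by
  intro k hk
  have hk' : (6 : ℝ) ≤ k := by exact_mod_cast hk
  set g : ℝ := ((k : ℝ) - 1) / 2 with hg
  have hg1 : 1 < g := by rw [hg]; linarith
  have hJ := JJ_pos (h := 1 / 2) (by norm_num) hg1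
  have hGpos : 0 < Ga k := Ga_pos k
  have hcc := cc_pos hg1
  have hccG : 0 < LTd.cc (g + 1 / 2) := cc_pos (by linarith)
  have h1 : (LTd.bco (1 / 2) g 1) ^ (1 - (g + 1 / 2)) = (LTd.JJ (1 / 2) g)⁻¹ := by
    unfold LTd.bco
    rw [Real.one_rpow, mul_one, ← Real.rpow_mul hJ.le, ← Real.rpow_neg_one]
    congr 1
    have : g + 1 / 2 - 1 ≠ 0 := by
      have : 0 < g + 1 / 2 - 1 := by linarith
      exact this.ne'
    rw [div_mul_eq_mul_div, one_mul, div_eq_iff this]
    ring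
  rw [h1]
  unfold LTd.JJ Pool.Agent.N537.RS.LL
  have e1 : g + 1 + 1 / 2 = (k : ℝ) / 2 + 1 := by rw [hg]; ring
  have e2 : g + 1 = ((k : ℝ) + 1) / 2 := by rw [hg]; ring
  rw [e1, e2]
  have hdup := Real.Gamma_mul_Gamma_add_half (((k : ℝ) + 1) / 2)
  have e3 : ((k : ℝ) + 1) / 2 + 1 / 2 = (k : ℝ) / 2 + 1 := by ring
  have e4 : 2 * (((k : ℝ) + 1) / 2) = (k : ℝ) + 1 := by ring
  have e5 : (1 : ℝ) - ((k : ℝ) + 1) = -(k : ℝ) := by ring
  rw [e3, e4, e5, Real.Gamma_nat_eq_factorial, Real.rpow_neg (by norm_num), Real.rpow_natCast]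
    at hdup
  have hΓ : 0 < Real.Gamma (((k : ℝ) + 1) / 2) := Real.Gamma_pos_of_pos (by positivity)
  have hs : (4 * Real.pi) ^ (1 / 2 : ℝ) = 2 * √Real.pi := by
    rw [← Real.sqrt_eq_rpow, Real.sqrt_mul (by norm_num)]
    congr 1
    rw [show (4 : ℝ) = 2 ^ 2 by norm_num, Real.sqrt_sq (by norm_num)]
  rw [hs]
  have hsp : 0 < √Real.pi := Real.sqrt_pos.mpr Real.pi_pos
  change Real.Gamma (((k : ℝ) + 1) / 2) * Ga k = _ at hdup
  change _ * (LTd.cc (g + 1 / 2) * (2 * √Real.pi) * Ga k /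
    (LTd.cc g * Real.Gamma (((k : ℝ) + 1) / 2)))⁻¹ = _
  have hfac : (k.factorial : ℝ) = Real.Gamma (((k : ℝ) + 1) / 2) * Ga k * 2 ^ k / √Real.pi := by
    rw [hdup]
    field_simp
  rw [hfac, pow_succ]
  generalize LTd.cc (g + 1 / 2) = C at hccG
  generalize LTd.cc g = D at hcc
  have hG0 := hGpos.ne'
  have hΓ0 := hΓ.ne'
  have hs0 := hsp.ne'
  field_simp

lemma om_eq {d : ℕ} (hd : 0 < d) : om d = √Real.pi ^ d / Ga d := by
  have : Nonempty (Fin d) := ⟨⟨0, hd⟩⟩
  unfold om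
  rw [EuclideanSpace.volume_ball, Fintype.card_fin, ENNReal.ofReal_one, one_pow, one_mul,
    ENNReal.toReal_ofReal (by
      have := Ga_pos d
      unfold Ga at this
      positivity)]
  rfl

lemma Kcl_rpow {d : ℕ} (hd : 0 < d) : Kcl d ^ ((d : ℝ) / 2) =
    ((d : ℝ) / (d + 2)) ^ ((d : ℝ) / 2) * ((2 * √Real.pi) ^ d * Ga d) := by
  have hd' : (0 : ℝ) < d := by exact_mod_cast hd
  have hω := om_pos d
  have hG := Ga_pos d
  have hsp : 0 < √Real.pi := Real.sqrt_pos.mpr Real.pi_pos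
  have hπ := Real.pi_pos
  unfold Kcl
  rw [Real.mul_rpow (by positivity) (by positivity),
    Real.div_rpow (x := (2 * Real.pi) ^ 2) (by positivity) (by positivity),
    ← Real.rpow_mul hω.le]
  have e1 : 2 / (d : ℝ) * ((d : ℝ) / 2) = 1 := by field_simp
  have e2 : ((2 * Real.pi) ^ 2) ^ ((d : ℝ) / 2) = (2 * Real.pi) ^ d := by
    rw [← Real.rpow_natCast (2 * Real.pi) 2, ← Real.rpow_mul (by positivity)]
    have : ((2 : ℕ) : ℝ) * ((d : ℝ) / 2) = (d : ℝ) := by push_cast; ring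
    rw [this, Real.rpow_natCast]
  rw [e1, e2, Real.rpow_one, om_eq hd]
  congr 1
  have e3 : (2 * Real.pi) ^ d = (2 * √Real.pi) ^ d * √Real.pi ^ d := by
    rw [← mul_pow]
    congr 1
    nlinarith [Real.mul_self_sqrt hπ.le]
  rw [e3]
  field_simp

lemma cc_Gamma {d : ℕ} (hd : 0 < d) : LTd.cc ((d : ℝ) / 2 + 1) * Real.Gamma ((d : ℝ) / 2 + 1 + 1) =
    ((d : ℝ) / (d + 2)) ^ ((d : ℝ) / 2) * Ga d := by
  have hd' : (0 : ℝ) < d := by exact_mod_cast hd
  unfold LTd.cc
  rw [Real.Gamma_add_one (by positivity)]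
  change _ * (_ * Ga d) = _
  have e1 : (d : ℝ) / 2 + 1 - 1 = (d : ℝ) / 2 := by ring
  rw [e1, Real.rpow_add (by positivity), Real.rpow_one]
  have e2 : ((d : ℝ) / (d + 2)) ^ ((d : ℝ) / 2) =
      ((d : ℝ) / 2) ^ ((d : ℝ) / 2) / ((d : ℝ) / 2 + 1) ^ ((d : ℝ) / 2) := by
    rw [← Real.div_rpow (by positivity) (by positivity)]
    congr 1
    field_simp
  rw [e2]
  have h1 : 0 < ((d : ℝ) / 2 + 1) ^ ((d : ℝ) / 2) := by positivity
  have h2 : 0 < (d : ℝ) / 2 + 1 := by positivity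
  generalize ((d : ℝ) / 2 + 1) ^ ((d : ℝ) / 2) = B at h1
  generalize ((d : ℝ) / 2) ^ ((d : ℝ) / 2) = A
  generalize (d : ℝ) / 2 + 1 = C at h2
  have h3 := h1.ne'
  have h4 := h2.ne'
  field_simp

theorem t_CSD : S_CSD := by
  intro k m hk
  have hk0 : 0 < k := by omega
  have hk' : (0 : ℝ) < k := by exact_mod_cast hk0
  have hd0 : 0 < k + m := by omega
  obtain ⟨hLL, hcst⟩ := Pool.Agent.N537.RS.CS.t_CST k hk
  have hfac : (0 : ℝ) < (k - 1).factorial := by exact_mod_cast Nat.factorial_pos _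
  have hKp : 0 < Kp k := by
    unfold Kp
    positivity
  have hcst' : Kcl k = sg k ^ (2 / (k : ℝ)) * Kp k := hcst
  have hσ := sg_pos hk0
  have hJ : 0 < LTd.JJ ((m : ℝ) / 2) ((k : ℝ) / 2 + 1) := JJ_pos (by positivity) (by linarith)
  have hdR : (0 : ℝ) < (k : ℝ) + m := by positivity
  have hω := om_pos (k + m)
  have hπ := Real.pi_pos
  have hKc : 0 < Kcl (k + m) := by
    unfold Kcl
    have : (0 : ℝ) < ((k + m : ℕ) : ℝ) := by exact_mod_cast hd0
    positivity
  -- the power of the right side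
  have hR : (sg k ^ (2 / ((k : ℝ) + m)) * LTd.bco ((m : ℝ) / 2) ((k : ℝ) / 2 + 1) (Kp k)) =
      (LTd.JJ ((m : ℝ) / 2) ((k : ℝ) / 2 + 1) * Kcl k ^ ((k : ℝ) / 2)) ^ (2 / ((k : ℝ) + m)) := by
    unfold LTd.bco
    have e1 : (k : ℝ) / 2 + 1 - 1 = (k : ℝ) / 2 := by ring
    have e2 : 1 / ((k : ℝ) / 2 + 1 + (m : ℝ) / 2 - 1) = 2 / ((k : ℝ) + m) := by
      have : (k : ℝ) / 2 + 1 + (m : ℝ) / 2 - 1 = ((k : ℝ) + m) / 2 := by ring
      rw [this]
      field_simp
    rw [e1, e2, ← Real.mul_rpow hσ.le (by positivity), hcst', Real.mul_rpow (by positivity) hKp.le,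
      ← Real.rpow_mul hσ.le]
    have e3 : 2 / (k : ℝ) * ((k : ℝ) / 2) = 1 := by field_simp
    rw [e3, Real.rpow_one]
    congr 1
    ring
  rw [hR]
  have hL : Kcl (k + m) = (Kcl (k + m) ^ (((k + m : ℕ) : ℝ) / 2)) ^ (2 / ((k : ℝ) + m)) := by
    rw [← Real.rpow_mul hKc.le]
    have : (((k + m : ℕ) : ℝ) / 2) * (2 / ((k : ℝ) + m)) = 1 := by
      push_cast
      field_simp
    rw [this, Real.rpow_one]
  rw [hL]
  congr 1
  rw [Kcl_rpow hd0, Kcl_rpow hk0]
  unfold LTd.JJ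
  have e4 : (k : ℝ) / 2 + 1 + (m : ℝ) / 2 = ((k + m : ℕ) : ℝ) / 2 + 1 := by push_cast; ring
  have e5 : (k : ℝ) / 2 + 1 + 1 + (m : ℝ) / 2 = ((k + m : ℕ) : ℝ) / 2 + 1 + 1 := by
    push_cast; ring
  rw [e4, e5]
  have h1 := cc_Gamma hd0
  have h2 := cc_Gamma hk0
  have e6 : (4 * Real.pi) ^ ((m : ℝ) / 2) = (2 * √Real.pi) ^ m := by
    have : 4 * Real.pi = (2 * √Real.pi) ^ 2 := by
      rw [mul_pow, Real.sq_sqrt hπ.le]; norm_num
    rw [this, ← Real.rpow_natCast (2 * √Real.pi) 2, ← Real.rpow_mul (by positivity)]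
    have : ((2 : ℕ) : ℝ) * ((m : ℝ) / 2) = (m : ℝ) := by push_cast; ring
    rw [this, Real.rpow_natCast]
  rw [e6, h2]
  have hGk := Ga_pos k
  have hGd := Ga_pos (k + m)
  have hX : 0 < ((k : ℝ) / (k + 2)) ^ ((k : ℝ) / 2) := by positivity
  have e7 : LTd.cc (((k + m : ℕ) : ℝ) / 2 + 1) * (2 * √Real.pi) ^ m *
      Real.Gamma (((k + m : ℕ) : ℝ) / 2 + 1 + 1) =
      (2 * √Real.pi) ^ m * ((((k + m : ℕ) : ℝ) / (((k + m : ℕ) : ℝ) + 2)) ^
        (((k + m : ℕ) : ℝ) / 2) * Ga (k + m)) := by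
    rw [← h1]; ring
  rw [e7, pow_add]
  field_simp

theorem t_CHO : S_CHO := by
  intro n T hT
  have hH : T.IsHermitian := by
    ext i j
    simp only [Matrix.conjTranspose_apply, star_trivial]
    exact hT.1 j i
  set U : Mat n := (hH.eigenvectorUnitary : Mat n) with hU
  set e : Fin n → ℝ := hH.eigenvalues with he
  have hUU : U * Uᵀ = 1 := by
    have := (Matrix.mem_unitaryGroup_iff (A := U)).mp hH.eigenvectorUnitary.2
    simpa [Matrix.star_eq_conjTranspose, Matrix.conjTranspose_eq_transpose_of_trivial] using this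
  have hUU' : Uᵀ * U = 1 := by
    have := (Matrix.mem_unitaryGroup_iff' (A := U)).mp hH.eigenvectorUnitary.2
    simpa [Matrix.star_eq_conjTranspose, Matrix.conjTranspose_eq_transpose_of_trivial] using this
  have hsp : T = U * Matrix.diagonal e * Uᵀ := by
    have := hH.spectral_theorem
    simpa [Unitary.conjStarAlgAut_apply, Matrix.star_eq_conjTranspose,
      Matrix.conjTranspose_eq_transpose_of_trivial] using this
  have hd : Uᵀ * T * U = Matrix.diagonal e := by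
    rw [hsp]
    calc Uᵀ * (U * Matrix.diagonal e * Uᵀ) * U = (Uᵀ * U) * Matrix.diagonal e * (Uᵀ * U) := by
          simp only [Matrix.mul_assoc]
      _ = Matrix.diagonal e := by rw [hUU', Matrix.one_mul, Matrix.mul_one]
  have hpos : ∀ i, 0 < e i := by
    intro i
    have h1 : e i = bf T (fun a => U a i) (fun a => U a i) := by
      have h2 := congrFun (congrFun hd i) i
      rw [Matrix.diagonal_apply_eq] at h2
      rw [← h2]
      unfold bf
      simp only [Matrix.mul_apply, Matrix.transpose_apply, Finset.sum_mul]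
      rw [Finset.sum_comm]
      refine Finset.sum_congr rfl fun a _ => Finset.sum_congr rfl fun b _ => ?_
      ring
    rw [h1]
    refine hT.2 _ fun h0 => ?_
    have h3 := congrFun (congrFun hUU' i) i
    rw [Matrix.mul_apply, Matrix.one_apply_eq] at h3
    have h4 : ∀ a, U a i = 0 := fun a => congrFun h0 a
    simp [Matrix.transpose_apply, h4] at h3
  have hs : ∀ i, 0 < √(e i) := fun i => Real.sqrt_pos.mpr (hpos i)
  refine ⟨U * Matrix.diagonal fun i => √(e i), Matrix.diagonal (fun i => (√(e i))⁻¹) * Uᵀ,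
    ?_, ?_, ?_⟩
  · calc U * Matrix.diagonal (fun i => √(e i)) * (Matrix.diagonal (fun i => (√(e i))⁻¹) * Uᵀ)
        = U * (Matrix.diagonal (fun i => √(e i)) * Matrix.diagonal (fun i => (√(e i))⁻¹)) * Uᵀ := by
          simp only [Matrix.mul_assoc]
      _ = 1 := by
          rw [Matrix.diagonal_mul_diagonal]
          have : (fun i => √(e i) * (√(e i))⁻¹) = fun _ => (1 : ℝ) := by
            ext i
            exact mul_inv_cancel₀ (hs i).ne'
          rw [this, Matrix.diagonal_one, Matrix.mul_one, hUU]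
  · calc Matrix.diagonal (fun i => (√(e i))⁻¹) * Uᵀ * (U * Matrix.diagonal fun i => √(e i))
        = Matrix.diagonal (fun i => (√(e i))⁻¹) * (Uᵀ * U) * Matrix.diagonal fun i => √(e i) := by
          simp only [Matrix.mul_assoc]
      _ = 1 := by
          rw [hUU', Matrix.mul_one, Matrix.diagonal_mul_diagonal]
          have : (fun i => (√(e i))⁻¹ * √(e i)) = fun _ => (1 : ℝ) := by
            ext i
            exact inv_mul_cancel₀ (hs i).ne'
          rw [this, Matrix.diagonal_one]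
  · rw [Matrix.transpose_mul, Matrix.diagonal_transpose]
    calc T = U * Matrix.diagonal e * Uᵀ := hsp
      _ = U * (Matrix.diagonal (fun i => √(e i)) * Matrix.diagonal (fun i => √(e i))) * Uᵀ := by
          rw [Matrix.diagonal_mul_diagonal]
          congr 3
          ext i
          exact (Real.mul_self_sqrt (hpos i).le).symm
      _ = _ := by simp only [Matrix.mul_assoc]

end

end Pool.Agent.Run7.h892.LK
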